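import Pool.Agent.H51.DM.ONE
import Pool.Agent.H51.DM.TWO

/-!
MP_2e096d_co: for every number `k` of rows there is a `(2 p, k, 2)`-difference matrix over
`ZMod (2 * p)` for almost all primes `p`.
-/

set_option autoImplicit false

namespace Pool.Agent.Results.MP_2e096d_co.AlmostAllPrimes

/-- There is a `(2 p, k, 2)`-difference matrix over `ZMod (2 * p)`: a `k` by `4 * p` matrix over
`ZMod (2 * p)` such that the entrywise differences of any two distinct rows cover every element
exactly twice. -/
def DiffMatrix (p k : ℕ) : Prop :=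
  ∃ D : Fin k → Fin (4 * p) → ZMod (2 * p),
    ∀ i j : Fin k, i ≠ j → ∀ x : ZMod (2 * p),
      (Finset.univ.filter (fun l : Fin (4 * p) => D i l - D j l = x)).card = 2

open Classical in
/-- For every number `k` of rows: for every sufficiently large `m`, all sufficiently large primes
`p` with `p ≡ 1 [MOD m]` have a `(2 p, k, 2)`-difference matrix over `ZMod (2 * p)`, and the
primes which have none have relative density zero in the primes. -/
theorem result : ∀ k : ℕ,
    (∃ m₀ : ℕ, ∀ m : ℕ, m₀ ≤ m → ∃ p₀ : ℕ, ∀ p : ℕ, p.Prime → p₀ ≤ p → p ≡ 1 [MOD m] →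
      DiffMatrix p k) ∧
    Filter.Tendsto (fun x : ℕ =>
      ((((Finset.Icc 1 x).filter (fun p => p.Prime ∧ ¬ DiffMatrix p k)).card : ℝ)) /
        Nat.primeCounting x) Filter.atTop (nhds 0) :=
  fun k => ⟨Pool.Agent.H51.DM.pf_ONE k, Pool.Agent.H51.DM.pf_TWO k⟩

end Pool.Agent.Results.MP_2e096d_co.AlmostAllPrimes
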